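import Mathlib
import Pool.Agent.Helper77.N3.Gform

set_option autoImplicit false

/-!
The number of no-three-in-line subsets of the `n × n` grid with at most `κ n` points is at most
`n ^ (n (g(κ) + o(1)))`, `g(κ) = (π/√12) arsinh(√12 κ/π)`, uniformly in `κ ≥ 0`.
-/

namespace Pool.Agent.Results.MP_413781_co.CountingSets

open Finset Pool.N3

open Classical in
theorem result :
    ∀ ε : ℝ, 0 < ε → ∃ n0 : ℕ, ∀ n : ℕ, n0 ≤ n → ∀ κ : ℝ, 0 ≤ κ →
      ((((box n).powerset.filter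
        (fun S => NoThree S ∧ (S.card : ℝ) ≤ κ * n)).card : ℕ) : ℝ)
      ≤ (n : ℝ) ^ ((n : ℝ) * (gexp κ + ε)) := by
  intro ε hε
  obtain ⟨n0, -, h⟩ := card_famLe_le ε hε
  refine ⟨n0, fun n hn κ hκ => ?_⟩
  have h1 := h n hn κ hκ
  rw [Gf_eq_gexp] at h1
  exact h1

end Pool.Agent.Results.MP_413781_co.CountingSets
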