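import Mathlib
import Pool.Agent.Helper83.MCo

set_option autoImplicit false

namespace Pool.Agent.Results.MP_413781_co.ModularConics

open Pool.Agent.Helper83.MC

/-- No-three-in-line sets satisfying a quadratic congruence modulo a prime `p ≥ 5` which is not
trivial modulo `p` (nondegenerate if `p = 5`): at most `(8/5 + 32/(25 p)) n + 3` points. -/
theorem result :
    ∀ c : ℝ, 0 < c → 3 * c ^ 3 = 2 * Real.pi ^ 2 →
    ∀ p : ℕ, p.Prime → 5 ≤ p → ∀ A B C D E G : ℤ,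
      ¬ ((p : ℤ) ∣ A ∧ (p : ℤ) ∣ B ∧ (p : ℤ) ∣ C ∧ (p : ℤ) ∣ D ∧ (p : ℤ) ∣ E ∧ (p : ℤ) ∣ G) →
      (p = 5 → ¬ (p : ℤ) ∣ 4 * A * C * G + B * D * E - A * E ^ 2 - C * D ^ 2 - G * B ^ 2) →
      8 / 5 + 32 / (25 * (p : ℝ)) < c ∧
      ∀ n : ℕ, (p ≤ n ∨ 2000 ≤ n) → ∀ S : Finset (ℤ × ℤ),
        (∀ q ∈ S, 0 ≤ q.1 ∧ q.1 < (n : ℤ) ∧ 0 ≤ q.2 ∧ q.2 < (n : ℤ)) →
        (∀ q ∈ S, ∀ r ∈ S, ∀ s ∈ S, q ≠ r → q ≠ s → r ≠ s →
          (r.1 - q.1) * (s.2 - q.2) ≠ (r.2 - q.2) * (s.1 - q.1)) →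
        (∀ q ∈ S, (p : ℤ) ∣ A * q.1 ^ 2 + B * q.1 * q.2 + C * q.2 ^ 2 + D * q.1 + E * q.2 + G) →
        (S.card : ℝ) ≤ (8 / 5 + 32 / (25 * (p : ℝ))) * n + 3 := by
  intro c hc0 hc3 p hp hp5 A B C D E G hne h5det
  have hpR : (0 : ℝ) < p := by exact_mod_cast hp.pos
  have h5R : (5 : ℝ) ≤ p := by exact_mod_cast hp5
  refine ⟨?_, ?_⟩
  · have hcc : (187 / 100 : ℝ) < c := by
      have hpi := Real.pi_gt_d2
      by_contra hcon
      push Not at hcon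
      have h1 : c ^ 3 ≤ (187 / 100 : ℝ) ^ 3 := pow_le_pow_left₀ hc0.le hcon 3
      have h2 : (3.14 : ℝ) ^ 2 < Real.pi ^ 2 := pow_lt_pow_left₀ hpi (by norm_num) (by norm_num)
      norm_num at h1 h2
      nlinarith
    have h8 : 32 / (25 * (p : ℝ)) ≤ 32 / 125 := by
      apply div_le_div_of_nonneg_left (by norm_num) (by norm_num)
      linarith
    linarith
  intro n hn S hbox hS hF
  have : Fact p.Prime := ⟨hp⟩
  have hbox' : InBox n S := hbox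
  have hS' : NoT S := hS
  have hc : OnConic (A : ZMod p) (B : ZMod p) (C : ZMod p) (D : ZMod p) (E : ZMod p)
      (G : ZMod p) S := by
    intro P hP
    have h1 := (ZMod.intCast_zmod_eq_zero_iff_dvd _ p).2 (hF P hP)
    push_cast at h1
    exact h1
  have hz : ∀ z : ℤ, (z : ZMod p) = 0 ↔ (p : ℤ) ∣ z :=
    fun z => ZMod.intCast_zmod_eq_zero_iff_dvd z p
  have h1 := all_bound hp5 (A : ZMod p) B C D E G (by
    rintro ⟨h1, h2, h3, h4, h5, h6⟩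
    exact hne ⟨(hz A).1 h1, (hz B).1 h2, (hz C).1 h3, (hz D).1 h4, (hz E).1 h5,
      (hz G).1 h6⟩) (by
    intro h5 h0
    apply h5det h5
    rw [← hz]
    push_cast
    exact h0) n hn S hbox' hS' hc
  have h2 : 25 * (p : ℝ) * S.card ≤ (40 * p + 32) * n + 75 * p := by exact_mod_cast h1
  have h4 : (8 / 5 + 32 / (25 * (p : ℝ))) * n + 3 = ((40 * p + 32) * n + 75 * p) / (25 * p) := by
    field_simp
    ring
  rw [h4, le_div_iff₀ (by positivity)]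
  linarith

end Pool.Agent.Results.MP_413781_co.ModularConics
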