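import Mathlib
import Pool.Agent.Helper83.MCk

set_option autoImplicit false

namespace Pool.Agent.Results.MP_413781_co.PeriodBounds

open Pool.Agent.Helper83.MC

/-- No-three-in-line sets on a nondegenerate conic modulo a prime `p ≥ 5`: at most
`2 n - k (p - 3)` points when `k p ≤ n`, if one of the square coefficients is not divisible by `p`,
or if `k = 1` and `n ≤ 2 p`. -/
theorem result :
    ∀ p : ℕ, p.Prime → 5 ≤ p → ∀ A B C D E G : ℤ,
      ¬ (p : ℤ) ∣ 4 * A * C * G + B * D * E - A * E ^ 2 - C * D ^ 2 - G * B ^ 2 →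
      ∀ n k : ℕ, k * p ≤ n → (¬ ((p : ℤ) ∣ A ∧ (p : ℤ) ∣ C) ∨ k = 1 ∧ n ≤ 2 * p) →
      ∀ S : Finset (ℤ × ℤ),
        (∀ q ∈ S, 0 ≤ q.1 ∧ q.1 < (n : ℤ) ∧ 0 ≤ q.2 ∧ q.2 < (n : ℤ)) →
        (∀ q ∈ S, ∀ r ∈ S, ∀ s ∈ S, q ≠ r → q ≠ s → r ≠ s →
          (r.1 - q.1) * (s.2 - q.2) ≠ (r.2 - q.2) * (s.1 - q.1)) →
        (∀ q ∈ S, (p : ℤ) ∣ A * q.1 ^ 2 + B * q.1 * q.2 + C * q.2 ^ 2 + D * q.1 + E * q.2 + G) →
        S.card + k * (p - 3) ≤ 2 * n := by
  intro p hp hp5 A B C D E G hdet n k hkn hk S hbox hS hF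
  have : Fact p.Prime := ⟨hp⟩
  have hbox' : InBox n S := hbox
  have hS' : NoT S := hS
  have hc : OnConic (A : ZMod p) (B : ZMod p) (C : ZMod p) (D : ZMod p) (E : ZMod p)
      (G : ZMod p) S := by
    intro P hP
    have h1 := (ZMod.intCast_zmod_eq_zero_iff_dvd _ p).2 (hF P hP)
    push_cast at h1
    exact h1
  have hz : ∀ z : ℤ, (z : ZMod p) = 0 ↔ (p : ℤ) ∣ z :=
    fun z => ZMod.intCast_zmod_eq_zero_iff_dvd z p
  have hdet' : 4 * (A : ZMod p) * C * G + B * D * E - A * (E : ZMod p) ^ 2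
      - C * (D : ZMod p) ^ 2 - G * (B : ZMod p) ^ 2 ≠ 0 := by
    intro h0
    apply hdet
    rw [← hz]
    push_cast
    exact h0
  have gen : ((A : ZMod p) ≠ 0 ∨ (C : ZMod p) ≠ 0) → S.card + (p - 3) * (n / p) ≤ 2 * n := by
    intro hac
    have h1 := gen_case hp5 (A : ZMod p) B C D E G hac hdet' n S hbox' hS' hc
    have h2 : ((S.card + (p - 3) * (n / p) : ℕ) : ℤ) ≤ ((2 * n : ℕ) : ℤ) := by
      rw [Nat.cast_add, Nat.cast_mul, Nat.cast_sub (by omega), Nat.cast_mul]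
      exact_mod_cast h1
    exact_mod_cast h2
  have hkq : k ≤ n / p := (Nat.le_div_iff_mul_le hp.pos).2 hkn
  by_cases hac : (A : ZMod p) ≠ 0 ∨ (C : ZMod p) ≠ 0
  · have h1 := gen hac
    have h2 : k * (p - 3) ≤ (p - 3) * (n / p) := by
      rw [mul_comm k]
      exact Nat.mul_le_mul_left _ hkq
    omega
  · push Not at hac
    obtain ⟨hA, hC⟩ := hac
    have hk' : k = 1 ∧ n ≤ 2 * p := by
      rcases hk with h | h
      · exact absurd ⟨(hz A).1 hA, (hz C).1 hC⟩ h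
      · exact h
    obtain ⟨rfl, hn2⟩ := hk'
    rw [hA, hC] at hc hdet'
    have h1 : (B : ZMod p) * (D * E - B * G) ≠ 0 := by
      intro h0
      apply hdet'
      linear_combination h0
    have h2 := hyp_periods (by omega) (B : ZMod p) D E G (left_ne_zero_of_mul h1)
      (right_ne_zero_of_mul h1) n (by omega) hn2 S hbox' hS' hc
    omega

end Pool.Agent.Results.MP_413781_co.PeriodBounds
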