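import Mathlib
import Pool.Agent.Helper77.N3.Gform

set_option autoImplicit false

/-!
Almost no set `W` of at most `n^(1+θ)` points of the `n × n` grid contains a no-three-in-line set
with `κ n` points, if `g(κ) < (1-θ) κ`, `g(κ) = (π/√12) arsinh(√12 κ/π)`.
-/

namespace Pool.Agent.Results.MP_413781_co.SparseGrids

open Finset Pool.N3

open Classical in
theorem result :
    ∀ κ θ : ℝ, 0 < κ → gexp κ < (1 - θ) * κ → ∀ δ : ℝ, 0 < δ →
      ∃ n0 : ℕ, ∀ n : ℕ, n0 ≤ n → ∀ M : ℕ, (M : ℝ) ≤ (n : ℝ) ^ (1 + θ) →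
        ((((powersetCard M (box n)).filter
          (fun W => ∃ S ⊆ W, NoThree S ∧ κ * n ≤ (S.card : ℝ))).card : ℕ) : ℝ)
          ≤ δ * ((powersetCard M (box n)).card : ℝ) := by
  intro κ θ hκ hg δ hδ
  rw [← Gf_eq_gexp] at hg
  exact sparse κ θ hκ hg δ hδ

end Pool.Agent.Results.MP_413781_co.SparseGrids
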